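import Pool.Agent.N246.SF.J1

/-!
Every `s`-frame of the Schwartz space coming from a `(p,q)`-supercritical Fourier sampling pair is
strong: the range of the analysis operator is complemented, and the analysis operator has a
continuous linear left inverse.
-/

set_option autoImplicit false

open SchwartzMap FourierTransform

namespace Pool.Agent.Results.MP_f612df_an.StrongFrames

/-- **Supercritical `s`-frames are strong.** -/
theorem result (p q : ℝ) (hp : 1 < p) (hq : 1 < q) (hpq : 1 / p + 1 / q = 1) (x y : ℤ → ℝ)
    (hx : SF.Supercritical p x) (hy : SF.Supercritical q y) (h : SF.IsSFrame x y) :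
    SF.IsStrongSFrame x y :=
  SF.J1_main hp hq hpq hx hy h

end Pool.Agent.Results.MP_f612df_an.StrongFrames
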